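import Pool.Agent.Lib.MP_c8715f_al_SQ.Dual

/-!
The direct sum of countably many copies of `C` with the box topology.
-/

set_option autoImplicit false

namespace Pool.Agent.Lib.MP_c8715f_al.SQ

open Set Filter Topology Pointwise

/-- the direct sum -/
def GS : Type := ℕ →₀ C

noncomputable instance : AddCommGroup GS := inferInstanceAs (AddCommGroup (ℕ →₀ C))

/-- coordinates -/
def co (f : GS) (n : ℕ) : C := (show ℕ →₀ C from f) n

theorem co_add (f g : GS) (n : ℕ) : co (f + g) n = co f n + co g n := rfl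

theorem co_neg (f : GS) (n : ℕ) : co (-f) n = -co f n := rfl

theorem co_sub (f g : GS) (n : ℕ) : co (f - g) n = co f n - co g n := rfl

theorem co_zero (n : ℕ) : co 0 n = 0 := rfl

theorem co_ext {f g : GS} (h : ∀ n, co f n = co g n) : f = g := Finsupp.ext h

theorem co_bound (f : GS) : ∃ m, ∀ n, m ≤ n → co f n = 0 := by
  obtain ⟨m, hm⟩ := (show ℕ →₀ C from f).support.bddAbove
  refine ⟨m + 1, fun n hn => Finsupp.notMem_support_iff.1 fun h => ?_⟩
  have := hm h
  omega

theorem exists_co (l : ℕ → C) (m : ℕ) (h : ∀ n, m ≤ n → l n = 0) : ∃ g : GS, ∀ n, co g n = l n :=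
  ⟨Finsupp.onFinset (Finset.range m) l fun n hn => Finset.mem_range.2 (not_le.1 fun c => hn (h n c)),
    fun _ => rfl⟩

/-- the element with one nonzero coordinate -/
noncomputable def sg (n : ℕ) (x : C) : GS := Finsupp.single n x

theorem co_sg_self (n : ℕ) (x : C) : co (sg n x) n = x := Finsupp.single_eq_same

theorem co_sg_ne {n m : ℕ} (h : m ≠ n) (x : C) : co (sg n x) m = 0 := Finsupp.single_eq_of_ne h

/-- basic neighbourhoods of zero -/
def box (F : ℕ → Finset Y) : Set GS := {f | ∀ n, ∀ y ∈ F n, (co f n).1 y = 0}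

/-- the filter basis of boxes -/
@[instance_reducible]
noncomputable def basis : AddGroupFilterBasis GS := addGroupFilterBasisOfComm (range box)
  (range_nonempty _)
  (by
    classical
    rintro _ _ ⟨F, rfl⟩ ⟨E, rfl⟩
    exact ⟨_, ⟨fun n => F n ∪ E n, rfl⟩, fun f hf =>
      ⟨fun n y hy => hf n y (Finset.mem_union_left _ hy),
        fun n y hy => hf n y (Finset.mem_union_right _ hy)⟩⟩)
  (by rintro _ ⟨F, rfl⟩ n y _; rfl)
  (by
    rintro _ ⟨F, rfl⟩
    refine ⟨_, ⟨F, rfl⟩, ?_⟩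
    rintro _ ⟨f, hf, g, hg, rfl⟩ n y hy
    change (co f n).1 y + (co g n).1 y = 0
    rw [hf n y hy, hg n y hy, add_zero])
  (by
    rintro _ ⟨F, rfl⟩
    refine ⟨_, ⟨F, rfl⟩, fun f hf n y hy => ?_⟩
    change -(co f n).1 y = 0
    rw [hf n y hy, neg_zero])

noncomputable instance : TopologicalSpace GS := basis.topology

instance : IsTopologicalAddGroup GS := basis.isTopologicalAddGroup

theorem mem_nhds_GS {f : GS} {s : Set GS} : s ∈ 𝓝 f ↔ ∃ F : ℕ → Finset Y,
    ∀ g : GS, (∀ n, ∀ y ∈ F n, (co g n).1 y = (co f n).1 y) → g ∈ s := by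
  rw [(basis.nhds_hasBasis f).mem_iff]
  constructor
  · rintro ⟨_, ⟨F, rfl⟩, h⟩
    refine ⟨F, fun g hg => h ⟨g - f, fun n y hy => sub_eq_zero.2 (hg n y hy), by simp⟩⟩
  · rintro ⟨F, h⟩
    refine ⟨_, ⟨F, rfl⟩, ?_⟩
    rintro _ ⟨g, hg, rfl⟩
    refine h _ fun n y hy => ?_
    change (co f n).1 y + (co g n).1 y = _
    rw [hg n y hy, add_zero]

theorem box_mem (F : ℕ → Finset Y) : box F ∈ 𝓝 (0 : GS) := mem_nhds_GS.2 ⟨F, fun _ h => h⟩

instance : T2Space GS := IsTopologicalAddGroup.t2Space_of_zero_sep fun f hf => by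
  have : ∃ n y, (co f n).1 y ≠ 0 := by
    by_contra hc
    push Not at hc
    exact hf (co_ext fun n => Subtype.ext (funext (hc n)))
  obtain ⟨n, y, h⟩ := this
  exact ⟨_, box_mem fun _ => {y}, fun hb => h (hb n y (Finset.mem_singleton_self y))⟩

theorem tendsto_GS {g : ℕ → GS} {f : GS} (m : ℕ) (h1 : ∀ j n, m ≤ n → co (g j) n = co f n)
    (h2 : ∀ n, Tendsto (fun j => co (g j) n) atTop (𝓝 (co f n))) : Tendsto g atTop (𝓝 f) := by
  intro s hs
  obtain ⟨F, hF⟩ := mem_nhds_GS.1 hs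
  have h3 : ∀ᶠ j in atTop, ∀ n ∈ Finset.range m, ∀ y ∈ F n, (co (g j) n).1 y = (co f n).1 y :=
    (eventually_all_finset _).2 fun n _ => (eventually_all_finset _).2 fun y _ =>
      tendsto_C.1 (h2 n) y
  refine mem_map.2 (h3.mono fun j hj => hF _ fun n y hy => ?_)
  rcases lt_or_ge n m with h | h
  · exact hj n (Finset.mem_range.2 h) y hy
  · rw [h1 j n h]

/-- the box condition below level `m` keeps away from `Z` -/
def Av (Z : Set GS) (f : GS) (m : ℕ) (F : ℕ → Finset Y) : Prop :=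
  ∀ g : GS, (∀ n, n < m → ∀ y ∈ F n, (co g n).1 y = (co f n).1 y) →
    (∀ n, m ≤ n → co g n = co f n) → g ∉ Z

theorem Av.step {Z : Set GS} (hZ : IsSeqClosed Z) {f : GS} {m : ℕ} {F : ℕ → Finset Y}
    (h : Av Z f m F) : ∃ E, Av Z f (m + 1) (Function.update F m E) := by
  let T : Set C := {t | ∃ g ∈ Z, (∀ n, n < m → ∀ y ∈ F n, (co g n).1 y = (co f n).1 y) ∧
    co g m = t ∧ ∀ n, m + 1 ≤ n → co g n = co f n}
  have hT : IsSeqClosed T := by
    intro t p ht hp
    choose g g1 g2 g3 g4 using ht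
    obtain ⟨φ, l, hφ, hl⟩ := subseq fun j n => co (g j) n
    have h1 : ∀ n, m + 1 ≤ n → l n = co f n := fun n hn =>
      tendsto_nhds_unique (hl n) (tendsto_const_nhds.congr fun j => (g4 (φ j) n hn).symm)
    obtain ⟨b, hb⟩ := co_bound f
    obtain ⟨k, hk⟩ := exists_co l (max (m + 1) b) fun n hn =>
      (h1 n (le_of_max_le_left hn)).trans (hb n (le_of_max_le_right hn))
    refine ⟨k, hZ (fun j => g1 (φ j)) (tendsto_GS (m + 1)
      (fun j n hn => by rw [hk, h1 n hn]; exact g4 _ n hn) fun n => (hk n).symm ▸ hl n),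
      fun n hn y hy => ?_, ?_, fun n hn => (hk n).trans (h1 n hn)⟩
    · obtain ⟨j, hj⟩ := (tendsto_C.1 (hl n) y).exists
      rw [hk, ← hj]
      exact g2 _ n hn y hy
    · rw [hk]
      exact tendsto_nhds_unique (hl m) ((hp.comp hφ.tendsto_atTop).congr fun j => (g3 (φ j)).symm)
  have h2 : co f m ∉ T := by
    rintro ⟨g, g1, g2, g3, g4⟩
    refine h g g2 (fun n hn => ?_) g1
    rcases hn.eq_or_lt with rfl | h3
    · exact g3
    · exact g4 n h3
  obtain ⟨E, hE⟩ := mem_nhds_C.1 (hT.isClosed.isOpen_compl.mem_nhds h2)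
  refine ⟨E, fun g g1 g2 g3 => hE (co g m) (fun y hy => g1 m (Nat.lt_succ_self m) y ?_)
    ⟨g, g3, fun n hn y hy => g1 n (hn.trans (Nat.lt_succ_self m)) y ?_, rfl, g2⟩⟩
  · rwa [Function.update_self]
  · rwa [Function.update_of_ne hn.ne]

instance : SequentialSpace GS := ⟨fun Z hZ => by
  refine isOpen_compl_iff.1 (isOpen_iff_mem_nhds.2 fun f hf => ?_)
  choose E hE using fun (m : ℕ) (F : {F : ℕ → Finset Y // Av Z f m F}) => F.2.step hZ
  let q : ∀ m : ℕ, {F : ℕ → Finset Y // Av Z f m F} := fun m => Nat.rec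
    ⟨fun _ => ∅, fun g _ g2 => (co_ext fun n => g2 n (Nat.zero_le n)).symm ▸ hf⟩
    (fun m F => ⟨_, hE m F⟩) m
  have hq : ∀ n m, n < m → (q m).1 n = (q (n + 1)).1 n := by
    intro n m hnm
    induction m, hnm using Nat.le_induction with
    | base => rfl
    | succ m hm ih => exact (Function.update_of_ne (by omega) _ _).trans ih
  refine mem_nhds_GS.2 ⟨fun n => (q (n + 1)).1 n, fun g hg => ?_⟩
  obtain ⟨a, ha⟩ := co_bound f
  obtain ⟨b, hb⟩ := co_bound g
  refine (q (max a b)).2 g (fun n hn y hy => hg n y ((hq n _ hn).subset hy)) fun n hn => ?_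
  rw [ha n (le_of_max_le_left hn), hb n (le_of_max_le_right hn)]⟩

theorem not_frechetUrysohn : ¬ FrechetUrysohnSpace GS := by
  classical
  intro h
  obtain ⟨c, y, hc, hlim⟩ := exists_null
  have hfin : ∀ F : Finset Y, ∃ k, ∀ a ∈ F, (c k).1 a = 0 := fun F =>
    ((eventually_all_finset F).2 fun a _ => tendsto_C.1 hlim a).exists
  have h0 : (0 : GS) ∈ closure (range fun p : ℕ × ℕ => sg 0 (c p.1) + sg (p.1 + 1) (c p.2)) := by
    refine mem_closure_iff_nhds.2 fun t ht => ?_
    obtain ⟨F, hF⟩ := mem_nhds_GS.1 ht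
    obtain ⟨n, hn⟩ := hfin (F 0)
    obtain ⟨k, hk⟩ := hfin (F (n + 1))
    refine ⟨_, hF _ fun m a ha => ?_, (n, k), rfl⟩
    rw [co_add]
    by_cases h1 : m = 0
    · subst h1
      rw [co_sg_self, co_sg_ne (by omega), add_zero]
      exact hn a ha
    by_cases h2 : m = n + 1
    · subst h2
      rw [co_sg_self, co_sg_ne h1, zero_add]
      exact hk a ha
    · rw [co_sg_ne h1, co_sg_ne h2, add_zero]
      rfl
  obtain ⟨a, ha, hl⟩ := mem_closure_iff_seq_limit.1 h0
  choose p hp using ha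
  have e0 : ∀ j, co (a j) 0 = c (p j).1 := fun j => by
    rw [← hp j, co_add, co_sg_self, co_sg_ne (by omega), add_zero]
  have e1 : ∀ j, co (a j) ((p j).1 + 1) = c (p j).2 := fun j => by
    rw [← hp j, co_add, co_sg_self, co_sg_ne (by omega), zero_add]
  have h1 : ∀ n, {j | (p j).1 + 1 = n}.Finite := by
    intro n
    have h2 : ∀ᶠ j in cofinite, a j ∈ box fun _ => {y (n - 1)} := by
      rw [Nat.cofinite_eq_atTop]
      exact hl (box_mem _)
    refine (eventually_cofinite.1 h2).subset fun j hj hb => ?_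
    have h3 := hb 0 _ (Finset.mem_singleton_self _)
    rw [e0, show (p j).1 = n - 1 by have : (p j).1 + 1 = n := hj; omega] at h3
    exact hc _ h3
  obtain ⟨j, hj⟩ := (hl.eventually (box_mem fun n => (h1 n).toFinset.image fun j => y (p j).2)).exists
  have h4 := hj ((p j).1 + 1) _ (Finset.mem_image_of_mem _ ((h1 _).mem_toFinset.2 rfl))
  rw [e1] at h4
  exact hc _ h4

theorem continuous_sg : Continuous (sg 0) := by
  refine continuous_iff_continuousAt.2 fun x s hs => ?_
  obtain ⟨F, hF⟩ := mem_nhds_GS.1 hs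
  refine mem_nhds_C.2 ⟨F 0, fun z hz => hF (sg 0 z) fun n y hy => ?_⟩
  by_cases h : n = 0
  · subst h
    rw [co_sg_self, co_sg_self]
    exact hz y hy
  · rw [co_sg_ne h, co_sg_ne h]

theorem continuous_co : Continuous fun f : GS => co f 0 := by
  refine continuous_iff_continuousAt.2 fun f s hs => ?_
  obtain ⟨F, hF⟩ := mem_nhds_C.1 hs
  exact mem_nhds_GS.2 ⟨fun _ => F, fun g hg => hF _ (hg 0)⟩

theorem not_isSGroup_GS : ¬ IsSGroup (PontryaginDual (Multiplicative GS)) :=
  not_isSGroup_of_retract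
    ⟨{ toFun := fun x => Multiplicative.ofAdd (sg 0 x.toAdd)
       map_one' := congrArg Multiplicative.ofAdd (Finsupp.single_zero 0)
       map_mul' := fun x y => congrArg Multiplicative.ofAdd (Finsupp.single_add 0 x.toAdd y.toAdd) },
      continuous_ofAdd.comp (continuous_sg.comp continuous_toAdd)⟩
    ⟨{ toFun := fun f => Multiplicative.ofAdd (co f.toAdd 0)
       map_one' := rfl
       map_mul' := fun _ _ => rfl },
      continuous_ofAdd.comp (continuous_co.comp continuous_toAdd)⟩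
    fun x => congrArg Multiplicative.ofAdd (co_sg_self 0 x.toAdd)

end Pool.Agent.Lib.MP_c8715f_al.SQ
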