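import Pool.Agent.Lib.MP_c8715f_al_SQ.Ord

/-!
The group of countably piecewise constant, eventually zero functions on `Y` with values modulo 2.
-/

set_option autoImplicit false

namespace Pool.Agent.Lib.MP_c8715f_al.SQ

open Set Filter Topology

/-- `x` is constant between consecutive points of `N` and zero above `N` -/
def Ad (N : Set Y) (x : Y → ZMod 2) : Prop :=
  (∀ a b, a ≤ b → (∀ ν ∈ N, a ≤ ν → b ≤ ν) → x a = x b) ∧ ∀ a, (∀ ν ∈ N, ν < a) → x a = 0

theorem Ad.mono {N M : Set Y} {x : Y → ZMod 2} (h : Ad N x) (hNM : N ⊆ M) : Ad M x :=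
  ⟨fun a b hab H => h.1 a b hab fun ν hν => H ν (hNM hν), fun a H => h.2 a fun ν hν => H ν (hNM hν)⟩

/-- the group -/
def CC : AddSubgroup (Y → ZMod 2) where
  carrier := {x | ∃ N : Set Y, N.Countable ∧ Ad N x}
  zero_mem' := ⟨∅, countable_empty, fun _ _ _ _ => rfl, fun _ _ => rfl⟩
  add_mem' := by
    rintro x y ⟨N, hN, hx⟩ ⟨M, hM, hy⟩
    have h1 := hx.mono (subset_union_left (t := M))
    have h2 := hy.mono (subset_union_right (s := N))
    refine ⟨N ∪ M, hN.union hM, fun a b hab H => ?_, fun a H => ?_⟩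
    · rw [Pi.add_apply, Pi.add_apply, h1.1 a b hab H, h2.1 a b hab H]
    · rw [Pi.add_apply, h1.2 a H, h2.2 a H, add_zero]
  neg_mem' := by
    rintro x ⟨N, hN, hx⟩
    refine ⟨N, hN, fun a b hab H => ?_, fun a H => ?_⟩
    · rw [Pi.neg_apply, Pi.neg_apply, hx.1 a b hab H]
    · rw [Pi.neg_apply, hx.2 a H, neg_zero]

/-- the group as a type -/
abbrev C : Type := CC

/-- a countable set carrying `x` -/
def car (x : C) : Set Y := x.2.choose

theorem car_countable (x : C) : (car x).Countable := x.2.choose_spec.1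

theorem ad_car (x : C) : Ad (car x) x.1 := x.2.choose_spec.2

theorem next_cases (N : Set Y) (a : Y) :
    (∀ ν ∈ N, ν < a) ∨ ∃ ν : N, a ≤ ν.1 ∧ ∀ μ ∈ N, a ≤ μ → ν.1 ≤ μ := by
  by_cases h : {ν | ν ∈ N ∧ a ≤ ν}.Nonempty
  · have h1 := wellFounded_lt.min_mem _ h
    exact Or.inr ⟨⟨_, h1.1⟩, h1.2, fun μ hμ ha =>
      not_lt.1 (wellFounded_lt.not_lt_min {ν | ν ∈ N ∧ a ≤ ν} ⟨hμ, ha⟩)⟩
  · exact Or.inl fun ν hν => not_le.1 fun ha => h ⟨ν, hν, ha⟩

theorem Ad.next {N : Set Y} {x : Y → ZMod 2} (h : Ad N x) {a : Y} {ν : N} (h1 : a ≤ ν.1)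
    (h2 : ∀ μ ∈ N, a ≤ μ → ν.1 ≤ μ) : x a = x ν.1 := h.1 a ν.1 h1 h2

open Classical in
/-- extension of a function on `N` -/
noncomputable def ex (N : Set Y) (φ : N → ZMod 2) (a : Y) : ZMod 2 :=
  if h : ∃ ν : N, a ≤ ν.1 ∧ ∀ μ ∈ N, a ≤ μ → ν.1 ≤ μ then φ h.choose else 0

theorem ex_eq {N : Set Y} (φ : N → ZMod 2) {a : Y} {ν : N} (h1 : a ≤ ν.1)
    (h2 : ∀ μ ∈ N, a ≤ μ → ν.1 ≤ μ) : ex N φ a = φ ν := by
  have h : ∃ ν : N, a ≤ ν.1 ∧ ∀ μ ∈ N, a ≤ μ → ν.1 ≤ μ := ⟨ν, h1, h2⟩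
  rw [ex, dif_pos h]
  exact congrArg φ (Subtype.ext (le_antisymm (h.choose_spec.2 _ ν.2 h1)
    (h2 _ h.choose.2 h.choose_spec.1)))

theorem ex_zero {N : Set Y} (φ : N → ZMod 2) {a : Y} (h : ∀ ν ∈ N, ν < a) : ex N φ a = 0 :=
  dif_neg fun ⟨ν, h1, _⟩ => absurd (h ν.1 ν.2) (not_lt.2 h1)

theorem ex_mem {N : Set Y} (φ : N → ZMod 2) (ν : N) : ex N φ ν.1 = φ ν :=
  ex_eq φ le_rfl fun _ _ h => h

theorem ad_ex (N : Set Y) (φ : N → ZMod 2) : Ad N (ex N φ) := by
  refine ⟨fun a b hab H => ?_, fun a H => ex_zero φ H⟩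
  rcases next_cases N b with h | ⟨ν, h1, h2⟩
  · rw [ex_zero φ h, ex_zero φ fun ν hν => not_le.1 fun ha => absurd (h ν hν) (not_lt.2 (H ν hν ha))]
  · rw [ex_eq φ h1 h2, ex_eq φ (hab.trans h1) fun μ hμ ha => h2 μ hμ (H μ hμ ha)]

/-- extension as a map into the group -/
noncomputable def exC {N : Set Y} (hN : N.Countable) (φ : N → ZMod 2) : C :=
  ⟨ex N φ, N, hN, ad_ex N φ⟩

theorem exC_res {N : Set Y} (hN : N.Countable) {x : C} (h : Ad N x.1) :
    exC hN (fun ν => x.1 ν.1) = x := by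
  refine Subtype.ext (funext fun a => ?_)
  rcases next_cases N a with h0 | ⟨ν, h1, h2⟩
  · exact (ex_zero (fun ν => x.1 ν.1) h0).trans (h.2 a h0).symm
  · exact (ex_eq (fun ν => x.1 ν.1) h1 h2).trans (h.next h1 h2).symm

theorem continuous_exC {N : Set Y} (hN : N.Countable) : Continuous (exC hN) := by
  refine Continuous.subtype_mk (continuous_pi fun a => ?_) _
  rcases next_cases N a with h0 | ⟨ν, h1, h2⟩
  · simp only [ex_zero _ h0]
    exact continuous_const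
  · simp only [ex_eq _ h1 h2]
    exact continuous_apply ν

theorem continuous_ev (y : Y) : Continuous fun x : C => x.1 y :=
  (continuous_apply y).comp continuous_subtype_val

theorem tendsto_C {ι : Type} {l : Filter ι} {u : ι → C} {x : C} :
    Tendsto u l (𝓝 x) ↔ ∀ y, ∀ᶠ i in l, (u i).1 y = x.1 y := by
  rw [tendsto_subtype_rng, tendsto_pi_nhds]
  simp only [nhds_discrete, tendsto_pure]

theorem mem_nhds_C {x : C} {s : Set C} :
    s ∈ 𝓝 x ↔ ∃ F : Finset Y, ∀ z : C, (∀ y ∈ F, z.1 y = x.1 y) → z ∈ s := by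
  constructor
  · intro h
    rw [nhds_subtype_eq_comap, mem_comap] at h
    obtain ⟨t, ht, hts⟩ := h
    rw [nhds_pi, mem_pi'] at ht
    obtain ⟨F, U, hU, hF⟩ := ht
    exact ⟨F, fun z hz => hts (hF fun y hy => (hz y hy).symm ▸ mem_of_mem_nhds (hU y))⟩
  · rintro ⟨F, h⟩
    filter_upwards [(eventually_all_finset F).2 fun y _ => tendsto_C.1 tendsto_id y] with z hz
    exact h z hz

instance : FrechetUrysohnSpace C := ⟨fun s x hx => by
  classical
  have h1 : ∀ F : Finset Y, ∃ a ∈ s, ∀ y ∈ F, a.1 y = x.1 y := fun F => by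
    obtain ⟨a, h1, h2⟩ := mem_closure_iff_nhds.1 hx {z | ∀ y ∈ F, z.1 y = x.1 y}
      (mem_nhds_C.2 ⟨F, fun _ h => h⟩)
    exact ⟨a, h2, h1⟩
  choose a ha1 ha2 using h1
  obtain ⟨y0, -⟩ := Y_ub countable_empty
  obtain ⟨N, hN, h0, hcl⟩ := closing (fun F => car (a F)) (fun F => car_countable _)
    ((car_countable x).insert y0)
  obtain ⟨e, rfl⟩ := hN.exists_eq_range ⟨y0, h0 (mem_insert _ _)⟩
  have hx' := (ad_car x).mono ((subset_insert _ _).trans h0)
  have ha' : ∀ i, Ad (range e) (a ((Finset.range (i + 1)).image e)).1 := fun i =>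
    (ad_car _).mono (hcl _ (by
      rw [Finset.coe_image]
      exact image_subset_range _ _))
  refine ⟨fun i => a ((Finset.range (i + 1)).image e), fun i => ha1 _, tendsto_C.2 fun y => ?_⟩
  rcases next_cases (range e) y with h | ⟨⟨_, k, rfl⟩, h1, h2⟩
  · exact Eventually.of_forall fun i => ((ha' i).2 y h).trans (hx'.2 y h).symm
  · filter_upwards [eventually_ge_atTop k] with i hi
    rw [(ha' i).next h1 h2, hx'.next h1 h2]
    exact ha2 _ _ (Finset.mem_image_of_mem e (Finset.mem_range.2 (Nat.lt_succ_of_le hi)))⟩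

theorem subseq (u : ℕ → ℕ → C) : ∃ (φ : ℕ → ℕ) (l : ℕ → C), StrictMono φ ∧
    ∀ n, Tendsto (fun j => u (φ j) n) atTop (𝓝 (l n)) := by
  have hN : (⋃ j, ⋃ n, car (u j n)).Countable :=
    countable_iUnion fun j => countable_iUnion fun n => car_countable _
  have := hN.to_subtype
  obtain ⟨l, φ, hφ, hl⟩ := CompactSpace.tendsto_subseq
    (fun j n (ν : ⋃ j, ⋃ n, car (u j n)) => (u j n).1 ν.1)
  refine ⟨φ, fun n => exC hN (l n), hφ, fun n => ?_⟩
  refine (((continuous_exC hN).tendsto _).comp (tendsto_pi_nhds.1 hl n)).congr fun j => ?_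
  exact exC_res hN ((ad_car _).mono ((subset_iUnion (fun n => car (u (φ j) n)) n).trans
    (subset_iUnion (fun j => ⋃ n, car (u j n)) (φ j))))

theorem exists_bound (x : C) : ∃ b, ∀ y, b ≤ y → x.1 y = 0 := by
  obtain ⟨b, hb⟩ := Y_ub (car_countable x)
  exact ⟨b, fun y hy => (ad_car x).2 y fun ν hν => (hb ν hν).trans_le hy⟩

/-- every compact subset of the group vanishes at some point -/
theorem compact_vanish {K : Set C} (hK : IsCompact K) : ∃ δ, ∀ x ∈ K, x.1 δ = 0 := by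
  have h1 : ∀ F : Finset Y, ∃ b, ∀ x ∈ K, ∃ z ∈ K, (∀ y ∈ F, z.1 y = x.1 y) ∧
      ∀ y, b ≤ y → z.1 y = 0 := by
    intro F
    have h2 : ∀ p : (fun (x : C) (y : F) => x.1 y.1) '' K, ∃ z ∈ K, (fun y : F => z.1 y.1) = p.1 :=
      fun p => p.2
    choose z hz1 hz2 using h2
    choose b hb using fun p => exists_bound (z p)
    obtain ⟨β, hβ⟩ := Y_ub (countable_range b)
    refine ⟨β, fun x hx => ⟨z ⟨_, x, hx, rfl⟩, hz1 _, fun y hy => congrFun (hz2 _) ⟨y, hy⟩,
      fun y hy => hb _ y ((hβ _ ⟨_, rfl⟩).le.trans hy)⟩⟩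
  choose h hh using h1
  obtain ⟨δ, d1, d2⟩ := Y_clo h
  refine ⟨δ, fun x hx => ?_⟩
  let A : Set C := {z | z ∈ K ∧ ∃ b < δ, ∀ y, b ≤ y → z.1 y = 0}
  let R : C → Iio δ → ZMod 2 := fun z y => z.1 y.1
  have hR : Continuous R := continuous_pi fun y => continuous_ev y.1
  have hA : IsCompact (closure A) :=
    hK.of_isClosed_subset isClosed_closure (closure_minimal (fun _ h => h.1) hK.isClosed)
  have h3 : R x ∈ closure (R '' closure A) := by
    refine mem_closure_iff_nhds.2 fun t ht => ?_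
    rw [nhds_pi, mem_pi'] at ht
    obtain ⟨F, U, hU, hF⟩ := ht
    obtain ⟨z, z1, z2, z3⟩ := hh (F.map (Function.Embedding.subtype _)) x hx
    refine ⟨R z, hF fun y hy => ?_, z, subset_closure ⟨z1, _, d1 _ fun a ha => ?_, z3⟩, rfl⟩
    · have : R z y = R x y := z2 _ (Finset.mem_map_of_mem _ hy)
      exact this.symm ▸ mem_of_mem_nhds (hU y)
    · obtain ⟨y, -, rfl⟩ := Finset.mem_map.1 ha
      exact y.2
  rw [(hA.image hR).isClosed.closure_eq] at h3
  obtain ⟨z, hz, hzx⟩ := h3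
  obtain ⟨a, ha, hlim⟩ := mem_closure_iff_seq_limit.1 hz
  choose b hb1 hb2 using fun i => (ha i).2
  obtain ⟨γ, g1, g2⟩ := d2 (range b ∪ car x ∩ Iio δ)
    ((countable_range b).union ((car_countable x).mono inter_subset_left)) (by
      rintro _ (⟨i, rfl⟩ | h)
      · exact hb1 i
      · exact h.2)
  obtain ⟨i, hi⟩ := (tendsto_C.1 hlim γ).exists
  have e1 : x.1 γ = x.1 δ := (ad_car x).1 γ δ g1.le fun ν hν hγ =>
    not_lt.1 fun hc => absurd (g2 ν (Or.inr ⟨hν, hc⟩)) (not_lt.2 hγ)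
  have e2 : z.1 γ = x.1 γ := congrFun hzx ⟨γ, g1⟩
  rw [← e1, ← e2, ← hi]
  exact hb2 i γ (g2 _ (Or.inl ⟨i, rfl⟩)).le

/-- the indicator function of an initial segment -/
noncomputable def seg (y : Y) : C := exC (countable_singleton y) fun _ => 1

theorem seg_le {a y : Y} (h : a ≤ y) : (seg y).1 a = 1 :=
  ex_eq (N := {y}) (ν := ⟨y, rfl⟩) (fun _ => 1) h fun _ hμ _ => le_of_eq hμ.symm

theorem seg_gt {a y : Y} (h : y < a) : (seg y).1 a = 0 :=
  ex_zero (N := {y}) (fun _ => 1) fun _ hμ => hμ ▸ h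

/-- a null sequence of nonzero elements -/
theorem exists_null : ∃ (c : ℕ → C) (y : ℕ → Y), (∀ k, (c k).1 (y k) ≠ 0) ∧
    Tendsto c atTop (𝓝 0) := by
  choose g hg using fun y : Y => Y_ub (countable_singleton y)
  obtain ⟨y0, -⟩ := Y_ub countable_empty
  let y : ℕ → Y := fun k => g^[k] y0
  have hy : StrictMono y := strictMono_nat_of_lt_succ fun k => by
    simp only [y, Function.iterate_succ_apply']
    exact hg _ _ rfl
  refine ⟨fun k => seg (y (k + 1)) - seg (y k), fun k => y (k + 1), fun k => ?_,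
    tendsto_C.2 fun a => ?_⟩
  · change (seg (y (k + 1))).1 (y (k + 1)) - (seg (y k)).1 (y (k + 1)) ≠ 0
    rw [seg_le le_rfl, seg_gt (hy (Nat.lt_succ_self k)), sub_zero]
    exact one_ne_zero
  · by_cases h : ∃ k, a ≤ y k
    · obtain ⟨k, hk⟩ := h
      filter_upwards [eventually_ge_atTop k] with j hj
      change (seg (y (j + 1))).1 a - (seg (y j)).1 a = 0
      rw [seg_le (hk.trans (hy.monotone hj)), seg_le (hk.trans (hy.monotone (by omega))), sub_self]
    · push Not at h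
      refine Eventually.of_forall fun j => ?_
      change (seg (y (j + 1))).1 a - (seg (y j)).1 a = 0
      rw [seg_gt (h _), seg_gt (h _), sub_self]

end Pool.Agent.Lib.MP_c8715f_al.SQ
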