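import Pool.Agent.Lib.MP_c8715f_al.Defs
import Pool.Agent.Lib.MP_c8715f_al_SQ.Grp

/-!
The dual of the group `C` has only eventually constant null sequences and is not discrete.
-/

set_option autoImplicit false

namespace Pool.Agent.Lib.MP_c8715f_al.SQ

open Set Filter Topology

/-- the dual group -/
abbrev DC : Type := PontryaginDual (Multiplicative C)

theorem isOpen_ne : IsOpen {z : Circle | (z : ℂ) ≠ -1} :=
  isOpen_ne_fun continuous_subtype_val continuous_const

theorem one_mem_ne : (1 : Circle) ∈ {z : Circle | (z : ℂ) ≠ -1} := by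
  simp only [mem_ofPred_eq, Circle.coe_one]
  norm_num

theorem char_eq_one (χ : DC) {x : Multiplicative C} (h : (χ x : ℂ) ≠ -1) : χ x = 1 := by
  have h1 : x * x = 1 := Multiplicative.toAdd.injective
    (Subtype.ext (funext fun y => CharTwo.add_self_eq_zero (x.toAdd.1 y)))
  have h2 : (χ x : ℂ) * (χ x : ℂ) = 1 := by
    rw [← Circle.coe_mul, ← map_mul, h1, map_one, Circle.coe_one]
  exact Circle.ext ((mul_self_eq_one_iff.1 h2).resolve_right h)

theorem char_fin (χ : DC) : ∃ F : Finset Y, ∀ x : C, (∀ y ∈ F, x.1 y = 0) →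
    χ (Multiplicative.ofAdd x) = 1 := by
  have h1 : Continuous fun x : C => χ (Multiplicative.ofAdd x) :=
    (map_continuous χ).comp continuous_ofAdd
  obtain ⟨F, hF⟩ := mem_nhds_C.1 ((isOpen_ne.preimage h1).mem_nhds (x := 0) (by
    rw [mem_preimage, ofAdd_zero, map_one]
    exact one_mem_ne))
  exact ⟨F, fun x hx => char_eq_one χ (hF x hx)⟩

theorem null_eventually {u : ℕ → DC} (hu : Tendsto u atTop (𝓝 1)) : ∀ᶠ n in atTop, u n = 1 := by
  choose F hF using fun n => char_fin (u n)
  have hN : (⋃ n, (F n : Set Y)).Countable := countable_iUnion fun n => (F n).countable_toSet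
  have h1 := ((ContinuousMonoidHom.isInducing_toContinuousMap (Multiplicative C)
    Circle).tendsto_nhds_iff (f := u)).1 hu
  rw [ContinuousMap.tendsto_nhds_compactOpen] at h1
  filter_upwards [h1 _ (isCompact_range (continuous_ofAdd.comp (continuous_exC hN))) _ isOpen_ne
    fun _ _ => one_mem_ne] with n hn
  refine PontryaginDual.ext fun x => ?_
  let z : C := exC hN fun ν => x.toAdd.1 ν.1
  have h2 : u n (Multiplicative.ofAdd z) = 1 := char_eq_one _ (hn ⟨_, rfl⟩)
  have h3 := hF n (x.toAdd - z) fun y hy => sub_eq_zero.2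
    (ex_mem (fun ν : ⋃ n, (F n : Set Y) => x.toAdd.1 ν.1) ⟨y, mem_iUnion.2 ⟨n, hy⟩⟩).symm
  rw [ofAdd_sub, map_div, h2, div_one] at h3
  exact h3

/-- evaluation at a point as a character -/
noncomputable def evc (δ : Y) : DC :=
  ContinuousMonoidHom.mk
    { toFun := fun g => ZMod.toCircle (g.toAdd.1 δ)
      map_one' := AddChar.map_zero_eq_one _
      map_mul' := fun _ _ => AddChar.map_add_eq_mul _ _ _ }
    ((continuous_of_discreteTopology (f := fun t : ZMod 2 => ZMod.toCircle t)).comp
      ((continuous_ev δ).comp continuous_toAdd))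

theorem evc_apply (δ : Y) (g : Multiplicative C) : evc δ g = ZMod.toCircle (g.toAdd.1 δ) := rfl

theorem evc_ne (δ : Y) : evc δ ≠ 1 := by
  intro h
  have h1 : evc δ (Multiplicative.ofAdd (seg δ)) = 1 := by rw [h]; rfl
  rw [evc_apply, toAdd_ofAdd, seg_le le_rfl, ← AddChar.map_zero_eq_one (ZMod.toCircle (N := 2))] at h1
  exact one_ne_zero (ZMod.injective_toCircle h1)

theorem not_open_one : ¬ IsOpen ({1} : Set DC) := by
  intro h
  let ι := {K : Set C // IsCompact K}
  have : Nonempty ι := ⟨⟨∅, isCompact_empty⟩⟩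
  have hne : (⨅ K : ι, 𝓟 {δ : Y | ∀ x ∈ K.1, x.1 δ = 0}).NeBot := by
    refine iInf_neBot_of_directed' (fun K L => ⟨⟨K.1 ∪ L.1, K.2.union L.2⟩, ?_, ?_⟩) fun K => ?_
    · exact principal_mono.2 fun δ hδ x hx => hδ x (Or.inl hx)
    · exact principal_mono.2 fun δ hδ x hx => hδ x (Or.inr hx)
    · exact principal_neBot_iff.2 (compact_vanish K.2)
  have ht : Tendsto evc (⨅ K : ι, 𝓟 {δ : Y | ∀ x ∈ K.1, x.1 δ = 0}) (𝓝 1) := by
    refine ((ContinuousMonoidHom.isInducing_toContinuousMap (Multiplicative C)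
      Circle).tendsto_nhds_iff (f := evc)).2 ?_
    rw [ContinuousMap.tendsto_nhds_compactOpen]
    intro K hK U _ hKU
    filter_upwards [mem_iInf_of_mem (⟨K, hK⟩ : ι) (mem_principal_self _)] with δ hδ g hg
    have h1 : evc δ g = 1 := by
      rw [evc_apply, hδ g.toAdd hg, AddChar.map_zero_eq_one]
    have h2 : (1 : Circle) ∈ U := hKU hg
    change evc δ g ∈ U
    rwa [h1]
  obtain ⟨δ, hδ⟩ := (ht.eventually (h.mem_nhds rfl)).exists
  exact evc_ne δ hδ

theorem ker_open {H H' : Type} [CommGroup H] [TopologicalSpace H] [Group H'] (h : IsSGroup H)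
    (r : H →* H') (hr : ∀ u : ℕ → H, Tendsto u atTop (𝓝 1) → ∀ᶠ n in atTop, r (u n) = 1) :
    IsOpen {x | r x = 1} := by
  obtain ⟨hg, ht, S, hS, hfin⟩ := h
  let _ : TopologicalSpace H' := ⊥
  have : DiscreteTopology H' := ⟨rfl⟩
  have h1 := hfin ((inferInstance : TopologicalSpace H) ⊓ TopologicalSpace.induced r inferInstance)
    (topologicalGroup_inf hg (topologicalGroup_induced r))
    (t2Space_antitone inf_le_left ht) (fun u hu => by
      rw [nhds_inf, nhds_induced, tendsto_inf, tendsto_comap_iff, map_one, nhds_discrete H',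
        tendsto_pure]
      exact ⟨hS u hu, hr u (hS u hu)⟩)
  exact (isOpen_discrete {1}).preimage (continuous_iff_le_induced.2 (h1.trans inf_le_right))

/-- if `C` is a retract of `G`, the dual of `G` is not an s-group -/
theorem not_isSGroup_of_retract {G : Type} [CommGroup G] [TopologicalSpace G]
    [IsTopologicalGroup G] (i : Multiplicative C →ₜ* G) (p : G →ₜ* Multiplicative C)
    (h : ∀ x, p (i x) = x) : ¬ IsSGroup (PontryaginDual G) := by
  intro hs
  have h1 := ker_open hs (PontryaginDual.map i).toMonoidHom fun u hu => null_eventually (by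
    have := ((map_continuous (PontryaginDual.map i)).tendsto 1).comp hu
    rwa [map_one] at this)
  refine not_open_one ?_
  have h2 := h1.preimage (map_continuous (PontryaginDual.map p))
  have h3 : (PontryaginDual.map p) ⁻¹' {x | (PontryaginDual.map i).toMonoidHom x = 1} = {1} := by
    ext χ
    have : (PontryaginDual.map i).toMonoidHom (PontryaginDual.map p χ) = χ :=
      PontryaginDual.ext fun x => congrArg χ (h x)
    rw [mem_preimage, mem_ofPred_eq, this, mem_singleton_iff]
  rwa [h3] at h2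

end Pool.Agent.Lib.MP_c8715f_al.SQ
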