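import Mathlib

/-!
The second uncountable ordinal as a well ordered type: countable sets are bounded and every
function on finite sets has a closure point of uncountable cofinality.
-/

set_option autoImplicit false

namespace Pool.Agent.Lib.MP_c8715f_al.SQ

open Set Cardinal

theorem Iio_lt {c : Cardinal.{0}} (i : c.ord.ToType) : #(Iio i) < c := by
  simpa using mk_Iio_lt i (by simp)

theorem exists_ub {c : Cardinal.{0}} (hc : c.IsRegular) (S : Set c.ord.ToType) (hS : #S < c) :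
    ∃ b, ∀ s ∈ S, s < b := by
  by_contra h
  push Not at h
  have h1 : (⋃ s ∈ S, Iic s) = Set.univ := eq_univ_of_forall fun b => by
    obtain ⟨s, hs, hb⟩ := h b
    exact mem_biUnion hs hb
  have h2 := (card_biUnion_lt_iff_forall_of_isRegular (t := fun s _ => Iic s) hc hS).2
    fun s _ => by
      rw [← Iio_insert]
      exact mk_insert_le.trans_lt (add_lt_of_lt hc.aleph0_le (Iio_lt s)
        (one_lt_aleph0.trans_le hc.aleph0_le))
  rw [h1, mk_univ, mk_ord_toType] at h2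
  exact lt_irrefl _ h2

/-- the second uncountable ordinal -/
def Y : Type := (Order.succ (ℵ₁ : Cardinal.{0})).ord.ToType

noncomputable instance : LinearOrder Y :=
  inferInstanceAs (LinearOrder (Order.succ (ℵ₁ : Cardinal.{0})).ord.ToType)

instance : WellFoundedLT Y :=
  inferInstanceAs (WellFoundedLT (Order.succ (ℵ₁ : Cardinal.{0})).ord.ToType)

theorem Y_ub' (S : Set Y) (hS : #S ≤ ℵ₁) : ∃ b, ∀ s ∈ S, s < b :=
  exists_ub (isRegular_succ aleph0_lt_aleph_one.le) S (Order.lt_succ_of_le hS)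

theorem Y_ub {S : Set Y} (hS : S.Countable) : ∃ b, ∀ s ∈ S, s < b :=
  Y_ub' S (hS.le_aleph0.trans aleph0_lt_aleph_one.le)

theorem Y_Iio (y : Y) : #(Iio y) ≤ ℵ₁ :=
  Order.le_of_lt_succ (Iio_lt (c := Order.succ ℵ₁) y)

theorem Y_step (h : Finset Y → Y) (y : Y) :
    ∃ z, y < z ∧ ∀ F : Finset Y, (∀ a ∈ F, a < y) → h F < z := by
  classical
  obtain ⟨b, hb⟩ := Y_ub' (range fun l : List (Iio y) => h (l.map Subtype.val).toFinset)
    (mk_range_le.trans ((mk_list_le_max _).trans (max_le aleph0_lt_aleph_one.le (Y_Iio y))))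
  obtain ⟨z, hz⟩ := Y_ub (S := {y, b}) (toFinite _).countable
  refine ⟨z, hz y (by simp), fun F hF => lt_trans (hb _ ⟨F.attach.toList.map
    fun a => ⟨a.1, hF a.1 a.2⟩, ?_⟩) (hz b (by simp))⟩
  refine congrArg h (Finset.ext fun a => ?_)
  simp

theorem Y_clo (h : Finset Y → Y) : ∃ δ, (∀ F : Finset Y, (∀ a ∈ F, a < δ) → h F < δ) ∧
    ∀ S : Set Y, S.Countable → (∀ a ∈ S, a < δ) → ∃ γ < δ, ∀ a ∈ S, a < γ := by
  classical
  choose g hg1 hg2 using Y_step h
  obtain ⟨ub, hub⟩ : ∃ ub : Set Y → Y, ∀ S : Set Y, S.Countable → ∀ s ∈ S, s < ub S := by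
    obtain ⟨y0, -⟩ := Y_ub countable_empty
    refine ⟨fun S => if hS : S.Countable then (Y_ub hS).choose else y0, fun S hS => ?_⟩
    simp only [dif_pos hS]
    exact (Y_ub hS).choose_spec
  have hW : ∀ S : Set (ℵ₁ : Cardinal.{0}).ord.ToType, S.Countable → ∃ b, ∀ s ∈ S, s < b :=
    fun S hS => exists_ub isRegular_aleph_one S (hS.le_aleph0.trans_lt aleph0_lt_aleph_one)
  let γ : (ℵ₁ : Cardinal.{0}).ord.ToType → Y := (wellFounded_lt).fix
    fun ξ IH => ub (range fun η : Iio ξ => g (IH η.1 η.2))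
  have hγ : ∀ ξ, γ ξ = ub (range fun η : Iio ξ => g (γ η.1)) := fun ξ =>
    WellFounded.fix_eq _ _ _
  have hlt : ∀ η ξ, η < ξ → g (γ η) < γ ξ := by
    intro η ξ hη
    rw [hγ ξ]
    have : Countable (Iio ξ) :=
      (le_aleph0_iff_set_countable.1 (lt_aleph_one_iff.1 (Iio_lt ξ))).to_subtype
    exact hub _ (countable_range _) _ ⟨⟨η, hη⟩, rfl⟩
  have hne : {y | ∀ ξ, γ ξ < y}.Nonempty := by
    obtain ⟨b, hb⟩ := Y_ub' (range γ) (mk_range_le.trans (mk_ord_toType _).le)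
    exact ⟨b, fun ξ => hb _ ⟨ξ, rfl⟩⟩
  have h1 := wellFounded_lt.min_mem _ hne
  have h2 : ∀ S : Set Y, S.Countable → (∀ a ∈ S, a < wellFounded_lt.min _ hne) →
      ∃ ξ, ∀ a ∈ S, a < γ ξ := by
    intro S hS ha
    have h3 : ∀ a : S, ∃ ξ, a.1 ≤ γ ξ := fun a => by
      by_contra hc
      push Not at hc
      exact wellFounded_lt.not_lt_min {y | ∀ ξ, γ ξ < y} hc (ha a.1 a.2)
    choose e he using h3
    have := hS.to_subtype
    obtain ⟨ξ, hξ⟩ := hW _ (countable_range e)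
    exact ⟨ξ, fun a has => ((he ⟨a, has⟩).trans_lt (hg1 _)).trans (hlt _ _ (hξ _ ⟨_, rfl⟩))⟩
  refine ⟨wellFounded_lt.min _ hne, fun F hF => ?_, fun S hS ha => ?_⟩
  · obtain ⟨ξ, hξ⟩ := h2 F F.countable_toSet hF
    obtain ⟨ζ, hζ⟩ := hW {ξ} (countable_singleton _)
    exact ((hg2 _ F hξ).trans (hlt _ _ (hζ ξ rfl))).trans (h1 ζ)
  · obtain ⟨ξ, hξ⟩ := h2 S hS ha
    exact ⟨_, h1 ξ, hξ⟩

theorem closing (f : Finset Y → Set Y) (hf : ∀ F, (f F).Countable) {N0 : Set Y}
    (h0 : N0.Countable) : ∃ N : Set Y, N.Countable ∧ N0 ⊆ N ∧ ∀ F : Finset Y, ↑F ⊆ N → f F ⊆ N := by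
  let M : ℕ → Set Y := fun k => Nat.rec N0 (fun _ M => M ∪ ⋃ F ∈ {F : Finset Y | ↑F ⊆ M}, f F) k
  have hM : ∀ k, (M k).Countable := by
    intro k
    induction k with
    | zero => exact h0
    | succ k ih =>
      refine ih.union (Countable.biUnion ?_ fun F _ => hf F)
      refine ((countable_ofPred_finite_subset ih).preimage_of_injOn
        Finset.coe_injective.injOn).mono fun F hF => ?_
      exact And.intro F.finite_toSet hF
  have hmono : Monotone M := monotone_nat_of_le_succ fun k => subset_union_left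
  refine ⟨⋃ k, M k, countable_iUnion hM, subset_iUnion M 0, fun F hF => ?_⟩
  obtain ⟨k, hk⟩ := hmono.directed_le.exists_mem_subset_of_finset_subset_biUnion hF
  exact (subset_biUnion_of_mem (u := f) (show F ∈ {F : Finset Y | ↑F ⊆ M k} from hk)).trans
    (subset_union_right.trans (subset_iUnion M (k + 1)))

end Pool.Agent.Lib.MP_c8715f_al.SQ
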